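import Pool.Agent.H73.G.R8.H294ZP.Stmts

open UpperHalfPlane ModularForm Function

namespace H294ZP.H610

theorem lau_reindex {N : ℕ} (hN : 0 < N) {m : ℕ} {A : ℂ} {f : ℍ → ℂ} (h : Lau 1 m A f) :
    Lau N (N * m) A f := by
  classical
  obtain ⟨c, hc0, hci, hs⟩ := h
  have hq : ∀ τ : ℍ, qq 1 τ = qq N τ ^ N := by
    intro τ
    unfold qq
    rw [← Complex.exp_nat_mul]
    congr 1
    have : (N : ℂ) ≠ 0 := by exact_mod_cast hN.ne'
    field_simp
    simp
  refine ⟨fun n => if N ∣ n then c (n / N) else 0, ?_, ?_, ?_⟩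
  · simp [hc0]
  · intro n
    by_cases hn : N ∣ n
    · simp only [hn, if_true]; exact hci _
    · simp only [hn, if_false]; exact isIntegral_zero
  · intro τ
    have hinj : Function.Injective (fun n : ℕ => N * n) := by
      intro a b hab
      exact Nat.eq_of_mul_eq_mul_left hN hab
    have key := (hinj.hasSum_iff (f := fun n => (if N ∣ n then c (n / N) else 0) * qq N τ ^ n)
      (a := qq N τ ^ (N * m) * f τ) ?_).1 ?_
    · exact key
    · intro x hx
      have : ¬ N ∣ x := by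
        rintro ⟨y, rfl⟩
        exact hx ⟨y, rfl⟩
      simp [this]
    · have h1 := hs τ
      rw [hq τ] at h1
      rw [pow_mul]
      convert h1 using 1
      ext n
      simp only [comp_apply, dvd_mul_right, if_true, Nat.mul_div_cancel_left n hN, pow_mul]

theorem lau_int {N m : ℕ} {A : ℂ} {f : ℍ → ℂ} (h : Lau N m A f) : IsIntegral ℤ A := by
  obtain ⟨c, hc0, hci, -⟩ := h
  rw [← hc0]; exact hci 0

/-- unit among the algebraic integers -/
def U1 (u : ℂ) : Prop := IsIntegral ℤ u ∧ ∃ v, u * v = 1 ∧ IsIntegral ℤ v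

theorem u1_one : U1 1 := ⟨isIntegral_one, 1, by simp, isIntegral_one⟩

theorem u1_mul {u v : ℂ} (hu : U1 u) (hv : U1 v) : U1 (u * v) := by
  obtain ⟨h1, u', h2, h3⟩ := hu
  obtain ⟨h4, v', h5, h6⟩ := hv
  refine ⟨h1.mul h4, u' * v', ?_, h3.mul h6⟩
  calc u * v * (u' * v') = (u * u') * (v * v') := by ring
    _ = 1 := by rw [h2, h5, one_mul]

theorem exp_int (b : ℤ) (d : ℕ) (hd : 0 < d) :
    IsIntegral ℤ (Complex.exp (2 * Real.pi * Complex.I * b / d)) := by
  apply IsIntegral.of_pow hd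
  rw [← Complex.exp_nat_mul]
  have hd' : (d : ℂ) ≠ 0 := by exact_mod_cast hd.ne'
  have : (d : ℂ) * (2 * Real.pi * Complex.I * b / d) = b * (2 * Real.pi * Complex.I) := by
    field_simp
  rw [this, Complex.exp_int_mul_two_pi_mul_I]
  exact isIntegral_one

theorem hol_sub {f g : ℍ → ℂ} (hf : Hol f) (hg : Hol g) : Hol (fun τ => f τ - g τ) := by
  have := DifferentiableOn.sub hf hg
  exact this

theorem hol_prod {ι : Type} [DecidableEq ι] (s : Finset ι) (f : ι → ℍ → ℂ) (hf : ∀ i, Hol (f i)) :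
    Hol (fun τ => ∏ i ∈ s, f i τ) := by
  induction s using Finset.induction_on with
  | empty =>
    simp only [Finset.prod_empty]
    exact differentiableOn_const _
  | insert a s ha ih =>
    simp only [Finset.prod_insert ha]
    exact DifferentiableOn.mul (hf a) ih

theorem lau_prod (hC : TC) {N : ℕ} (hN : 0 < N) {ι : Type} [DecidableEq ι] (s : Finset ι)
    (f : ι → ℍ → ℂ) (m : ι → ℕ) (u : ι → ℂ) (hu : ∀ i, U1 (u i)) (hf : ∀ i, Lau N (m i) (u i) (f i)) :
    U1 (∏ i ∈ s, u i) ∧ Lau N (∑ i ∈ s, m i) (∏ i ∈ s, u i) (fun τ => ∏ i ∈ s, f i τ) := by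
  induction s using Finset.induction_on with
  | empty =>
    simp only [Finset.prod_empty, Finset.sum_empty]
    exact ⟨u1_one, hC.1 N 1 hN isIntegral_one⟩
  | insert a s ha ih =>
    simp only [Finset.prod_insert ha, Finset.sum_insert ha]
    exact ⟨u1_mul (hu a) ih.1, hC.2.2.2.1 N _ _ _ _ _ _ hN (hf a) ih.2⟩

theorem lau_sub (hC : TC) {N : ℕ} (hN : 0 < N) {m : ℕ} {A B : ℂ} {f g : ℍ → ℂ}
    (hf : Lau N m A f) (hg : Lau N m B g) : Lau N m (A - B) (fun τ => f τ - g τ) := by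
  have h1 := hC.1 N (-1) hN isIntegral_one.neg
  have h2 := hC.2.2.2.1 N 0 m (-1) B _ _ hN h1 hg
  rw [zero_add] at h2
  have h3 := hC.2.2.1 N m A _ f _ hN hf h2
  convert h3 using 1
  · ring
  · ext τ; ring

/-- a factor of the diagonal modular polynomial -/
theorem factor (hC : TC) {N : ℕ} (hN : 0 < N) {n : ℕ} (hn : n ≠ N) {B : ℂ} {f g : ℍ → ℂ}
    (hf : Lau N N 1 f) (hB : U1 B) (hg : Lau N n B g) :
    ∃ (m : ℕ) (u : ℂ), U1 u ∧ Lau N m u (fun τ => f τ - g τ) := by
  rcases lt_or_gt_of_ne hn with h | h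
  · refine ⟨N, 1, u1_one, ?_⟩
    have h1 := hC.2.1 N n (N - n) B g hN (by omega) hg
    rw [Nat.add_sub_cancel' h.le] at h1
    have := lau_sub hC hN hf h1
    simpa using this
  · refine ⟨n, -B, ?_, ?_⟩
    · obtain ⟨h1, v, h2, h3⟩ := hB
      exact ⟨h1.neg, -v, by rw [neg_mul_neg, h2], h3.neg⟩
    · have h1 := hC.2.1 N N (n - N) 1 f hN (by omega) hf
      rw [Nat.add_sub_cancel' (le_of_lt h)] at h1
      have := lau_sub hC hN h1 hg
      simpa using this

theorem nonsq (a b c : ℤ) (hK : 0 < 4 * a * c - b ^ 2) :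
    ∃ (t : ℤ) (N : ℕ), 0 < N ∧ t * (t + b) - (-c) * a = N ∧ ∀ s : ℕ, s ^ 2 ≠ N := by
  set K := 4 * a * c - b ^ 2 with hKdef
  set t : ℤ := K + |b| with ht
  have hb1 : -|b| ≤ b := neg_abs_le b
  have hb0 : 0 ≤ |b| := abs_nonneg b
  have h2 : 0 < 2 * t + b := by rw [ht]; linarith
  have h3 : K < 2 * (2 * t + b) + 1 := by rw [ht]; linarith
  have h4 : 4 * (t * (t + b) - (-c) * a) = (2 * t + b) ^ 2 + K := by rw [hKdef]; ring
  have hpos : 0 < t * (t + b) - (-c) * a := by
    have : 0 < (2 * t + b) ^ 2 := by positivity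
    linarith
  obtain ⟨N, hN⟩ := Int.eq_ofNat_of_zero_le hpos.le
  refine ⟨t, N, ?_, hN, ?_⟩
  · rw [hN] at hpos; exact_mod_cast hpos
  · intro s hs
    have h5 : ((s : ℤ)) ^ 2 = t * (t + b) - (-c) * a := by rw [hN, ← hs]; push_cast; ring
    have h6 : (2 * (s : ℤ)) ^ 2 = (2 * t + b) ^ 2 + K := by rw [← h4, ← h5]; ring
    have h7 : 2 * t + b < 2 * (s : ℤ) := by
      by_contra hcon
      push Not at hcon
      have : (2 * (s : ℤ)) ^ 2 ≤ (2 * t + b) ^ 2 := by
        apply pow_le_pow_left₀ (by positivity) hcon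
      linarith
    have h8 : 2 * t + b + 1 ≤ 2 * (s : ℤ) := h7
    have h9 : (2 * t + b + 1) ^ 2 ≤ (2 * (s : ℤ)) ^ 2 := by
      apply pow_le_pow_left₀ (by linarith) h8
    nlinarith

theorem disc_pos (τ : ℍ) (a b c : ℤ) (ha : a ≠ 0) (h : (a : ℂ) * (τ : ℂ) ^ 2 + b * τ + c = 0) :
    0 < 4 * a * c - b ^ 2 := by
  have hy : 0 < (τ : ℂ).im := τ.2
  set x := (τ : ℂ).re with hx
  set y := (τ : ℂ).im with hy'
  have hre := congrArg Complex.re h
  have him := congrArg Complex.im h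
  simp [sq, Complex.mul_re, Complex.mul_im] at hre him
  have h1 : 2 * (a : ℝ) * x + b = 0 := by
    have : y * (2 * (a : ℝ) * x + b) = 0 := by
      rw [← him]
      change y * (2 * (a : ℝ) * x + b) = a * (x * y + y * x) + b * y
      ring
    rcases mul_eq_zero.1 this with h0 | h0
    · exact absurd h0 hy.ne'
    · exact h0
  have ha' : (a : ℝ) ≠ 0 := by exact_mod_cast ha
  have h2 : (4 * (a : ℝ) * c - b ^ 2) = 4 * (a : ℝ) ^ 2 * y ^ 2 := by
    have hb : (b : ℝ) = - (2 * a * x) := by linarith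
    have hre' : (a : ℝ) * (x * x - y * y) + b * x + c = 0 := by
      exact hre
    have hc : (c : ℝ) = - ((a : ℝ) * (x * x - y * y) + b * x) := by linarith
    rw [hc, hb]; ring
  have h3 : (0 : ℝ) < 4 * (a : ℝ) * c - b ^ 2 := by
    rw [h2]; positivity
  exact_mod_cast h3

theorem te : TaskTE := by
  classical
  intro hA hB hC hF τ hcm
  obtain ⟨a, b, c, ha, habc⟩ := hcm
  have hK := disc_pos τ a b c ha habc
  obtain ⟨t, N, hN, hdet, hns⟩ := nonsq a b c hK
  obtain ⟨ι, _, _, a', d', b', h, had, hh, hperm, hall⟩ := hF N hN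
  -- the factors
  have hjN : Lau N N 1 jj := by
    have := lau_reindex hN hA.2.2
    rwa [mul_one] at this
  have hfac : ∀ k : ι, ∃ (m : ℕ) (u : ℂ), U1 u ∧ Lau N m u (fun w => jj w - jj (h k w)) := by
    intro k
    obtain ⟨h1, h2, h3⟩ := had k
    have h4 := (hC.2.2.2.2 hA.2.1 hA.2.2 (a' k) (d' k) (b' k) h1 h2 (h k) (hh k)).1
    rw [h3] at h4
    refine factor hC hN (n := a' k ^ 2) (hns _) hjN ?_ h4
    refine ⟨lau_int h4, Complex.exp (2 * Real.pi * Complex.I * (b' k) / (d' k)), ?_,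
      exp_int _ _ h2⟩
    rw [← Complex.exp_add, neg_add_cancel, Complex.exp_zero]
  choose m u hu hm using hfac
  set D : ℍ → ℂ := fun w => ∏ k, (jj w - jj (h k w)) with hD
  have hDinv : Inv D := by
    intro p q r s hdet' w w' hw
    obtain ⟨σ, hσ⟩ := hperm p q r s hdet' w w' hw
    simp only [hD]
    rw [← Equiv.prod_comp σ (fun k => jj w - jj (h k w))]
    apply Finset.prod_congr rfl
    intro k _
    rw [hσ k, hA.1 p q r s hdet' w w' hw]
  have hDhol : Hol D := by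
    apply hol_prod
    intro k
    obtain ⟨h1, h2, h3⟩ := had k
    exact hol_sub hA.2.1 (hC.2.2.2.2 hA.2.1 hA.2.2 (a' k) (d' k) (b' k) h1 h2 (h k) (hh k)).2
  obtain ⟨hU, hL⟩ := lau_prod hC hN Finset.univ (fun k w => jj w - jj (h k w)) m u hu hm
  set M := ∑ k, m k with hM
  set U := ∏ k, u k with hUdef
  obtain ⟨P, hPi, hPe, hdvd, hdeg, hlead⟩ := hB N hN M U D hDinv hDhol hL
  obtain ⟨hUi, V, hUV, hVi⟩ := hU
  have hU0 : U ≠ 0 := by
    intro h0; rw [h0, zero_mul] at hUV; exact zero_ne_one hUV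
  have hlead' := hlead (hdvd hU0)
  have hnat : P.natDegree = M / N := by
    apply le_antisymm hdeg
    apply Polynomial.le_natDegree_of_ne_zero
    rw [hlead']; exact hU0
  -- D τ = 0
  have hz : P.eval (jj τ) = 0 := by
    rw [← hPe τ]
    obtain ⟨k, hk⟩ := hall t (-c) a (t + b) hdet τ τ (by
      push_cast
      linear_combination habc)
    simp only [hD]
    apply Finset.prod_eq_zero (Finset.mem_univ k)
    rw [← hk, sub_self]
  -- monic polynomial
  set Q := Polynomial.C V * P with hQ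
  have hQm : Q.Monic := by
    have hV0 : V ≠ 0 := by
      intro h0; rw [h0, mul_zero] at hUV; exact zero_ne_one hUV
    unfold Polynomial.Monic Polynomial.leadingCoeff
    rw [hQ, Polynomial.natDegree_C_mul hV0, Polynomial.coeff_C_mul, hnat, hlead', mul_comm, hUV]
  have hlift : Q ∈ Polynomial.lifts (algebraMap (integralClosure ℤ ℂ) ℂ) := by
    rw [Polynomial.lifts_iff_coeff_lifts]
    intro n
    refine ⟨⟨Q.coeff n, ?_⟩, rfl⟩
    rw [hQ, Polynomial.coeff_C_mul]
    exact hVi.mul (hPi n)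
  obtain ⟨q, hq1, -, hq3⟩ := Polynomial.lifts_and_natDegree_eq_and_monic hlift hQm
  have hint : IsIntegral (integralClosure ℤ ℂ) (jj τ) := by
    refine ⟨q, hq3, ?_⟩
    rw [← Polynomial.eval_map, hq1, hQ, Polynomial.eval_mul, hz, mul_zero]
  exact isIntegral_trans _ hint

end H294ZP.H610
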